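import Pool.Agent.LibBR70.H1l
import Pool.Agent.LibBR70.H1h
import Pool.Agent.LibBR73.AN0
import Pool.Agent.LibSR85.Geo

/-! The structure `SR85.HG` from the objects of LibBR70: definitions. -/

open MeasureTheory Set Filter Topology
open scoped ContDiff ENNReal NNReal ComplexConjugate

namespace HG20

open BGS BR

/-- Complex coordinates. -/
def tc (v : Pl) : ℂ := ⟨v.1, v.2⟩

def tp (v : ℂ) : Pl := (v.re, v.im)

/-- The frame coordinates of a tangent vector, as a linear map. -/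
noncomputable def fiL (m : Pl → Co) (z : Pl) : Pl →L[ℝ] ℂ :=
  (ContinuousLinearMap.fst ℝ ℝ ℝ).smulRight (tc (ifr (m z) (1, 0))) +
    (ContinuousLinearMap.snd ℝ ℝ ℝ).smulRight (tc (ifr (m z) (0, 1)))

/-- The connection form in frame coordinates, as a linear map. -/
noncomputable def omL (m : Pl → Co) (z : Pl) : ℂ →L[ℝ] ℝ :=
  Complex.reCLM.smulRight (om m z (fr (m z) (1, 0))) +
    Complex.imCLM.smulRight (om m z (fr (m z) (0, 1)))

/-- The data. -/
noncomputable def dat (Γ : Type) [Group Γ] [MulAction Γ Pl] (m : Pl → Co) (a b LK : ℝ) :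
    SR85.Dat Γ where
  rho z := √(dt (m z))
  fi := fiL m
  om := omL m
  K := curv m
  E x v := Ex m x (tp v)
  V x y := tc (Vx m x y)
  B x u t := JB m x (tp u) t
  Bd x u t := deriv (JB m x (tp u)) t
  R g x := tc (Rg m g x (1, 0))
  a := a
  b := b
  LK := LK

/-- The hypotheses. -/
structure Ctx {Γ : Type} [Group Γ] [MulAction Γ Pl] (D : Set Pl) (m : Pl → Co) (a b LK : ℝ)
    (G : SR85.Dat Γ) : Prop where
  hX : Surface Γ D
  hO : Ori Γ
  hm : HM Γ m
  area : ∫ z in D, √(dt (m z)) = 1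
  a_pos : 0 < a
  ab : a ≤ b
  LK_pos : 0 < LK
  K_le : ∀ z, curv m z ≤ -a ^ 2
  K_ge : ∀ z, -b ^ 2 ≤ curv m z
  K_lip : ∀ x y, |curv m x - curv m y| ≤ LK * eu (Vx m x y)
  eq : G = dat Γ m a b LK

end HG20
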