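import Pool.Agent.LibHG20.Defs

/-! ROW G1 : coordinates and the simple fields. Uses LibBR70 (H1a, H1e, H1g, H1j, H1l).
PLAN. Short lemmas. `fiL_apply`: `ifr c` is linear (`bf` is bilinear). `omL_apply`: `fr c` and `om m z` are
linear. `G1_B_cont`: `J_smooth` gives `JB` smooth in `(x, u, t)`; the derivative in `t` of a jointly smooth
function is jointly continuous (`deriv (JB m x u) t = fderiv ℝ (fun q => JB m q.1.1 q.1.2 q.2) ((x, u), t) (0, 1)`).
`G1_ode`: `J_zero`, `JB_ode`, `Ex_ray`. After `subst h.eq` (or `obtain`/`rw [h.eq]`) everything is definitional. -/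

open MeasureTheory Set Filter Topology
open scoped ContDiff ENNReal NNReal ComplexConjugate

namespace HG20

open BGS BR

variable {Γ : Type} [Group Γ] [MulAction Γ Pl] {D : Set Pl} {m : Pl → Co} {a b LK : ℝ}
  {G : SR85.Dat Γ}

theorem tc_tp (v : ℂ) : tc (tp v) = v := rfl

theorem tp_tc (v : Pl) : tp (tc v) = v := rfl

theorem norm_tc (v : Pl) : ‖tc v‖ = eu v := by
  rw [Complex.norm_def, Complex.normSq_apply]
  unfold eu tc
  simp only
  rw [← sq, ← sq]

theorem eu_tp (v : ℂ) : eu (tp v) = ‖v‖ := by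
  rw [← norm_tc, tc_tp]

theorem tp_mul (t : ℝ) (u : ℂ) : tp ((t : ℂ) * u) = t • tp u := by
  refine Prod.ext ?_ ?_
  · simp [tp]
  · simp [tp]

theorem tc_smul (t : ℝ) (v : Pl) : tc (t • v) = (t : ℂ) * tc v := by
  apply Complex.ext
  · simp [tc]
  · simp [tc]

theorem tc_rot (v : Pl) : tc (rot v) = Complex.I * tc v := by
  apply Complex.ext
  · simp [tc, rot]
  · simp [tc, rot]

theorem tp_I (u : ℂ) : tp (Complex.I * u) = rot (tp u) := by
  refine Prod.ext ?_ ?_
  · simp [tp, rot]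
  · simp [tp, rot]

theorem tc_neg (v : Pl) : tc (-v) = -tc v := by
  apply Complex.ext
  · simp [tc]
  · simp [tc]

theorem re_conj (v w : Pl) : (tc v * conj (tc w)).re = ip v w := by
  simp [tc, ip]

theorem im_conj (v w : Pl) : (tc v * conj (tc w)).im = ip v (rot w) := by
  simp [tc, ip, rot]

theorem tc_continuous : Continuous tc := by
  have h : tc = fun v : Pl => (v.1 : ℂ) + (v.2 : ℂ) * Complex.I := by
    funext v
    apply Complex.ext
    · simp [tc]
    · simp [tc]
  rw [h]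
  fun_prop

theorem tp_continuous : Continuous tp :=
  Complex.continuous_re.prodMk Complex.continuous_im

theorem fiL_apply (m : Pl → Co) (z w : Pl) : fiL m z w = tc (ifr (m z) w) := by
  have h : fiL m z w = w.1 • tc (ifr (m z) (1, 0)) + w.2 • tc (ifr (m z) (0, 1)) := rfl
  rw [h]
  apply Complex.ext
  · simp [tc, ifr, bf]
    ring
  · simp [tc, ifr, bf]
    ring

theorem omL_apply (m : Pl → Co) (z : Pl) (v : ℂ) : omL m z v = om m z (fr (m z) (tp v)) := by
  have h : omL m z v = v.re • om m z (fr (m z) (1, 0)) + v.im • om m z (fr (m z) (0, 1)) := rfl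
  rw [h]
  simp [tp, om, fr]
  ring

theorem G1_cont (h : Ctx D m a b LK G) : Continuous G.rho ∧ (∀ z, 0 < G.rho z) ∧
    Continuous G.fi ∧ Continuous G.om ∧ Continuous G.K ∧
    (Continuous fun q : Pl × ℂ => G.E q.1 q.2) ∧ Continuous fun q : Pl × Pl => G.V q.1 q.2 := by
  have hX := h.hX
  have hm := h.hm
  rw [h.eq]
  have hmc : Continuous m := hm.smooth.continuous
  refine ⟨?_, ?_, ?_, ?_, ?_, ?_, ?_⟩
  · show Continuous fun z => √(dt (m z))
    unfold dt
    fun_prop
  · intro z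
    exact Real.sqrt_pos.2 (hm.pos z).2
  · show Continuous (fiL m)
    rw [continuous_clm_apply]
    intro y
    have h1 : (fun z => fiL m z y) = fun z => tc (ifr (m z) y) := funext fun z => fiL_apply m z y
    rw [h1]
    have h2 := (ifr_smooth hm.smooth hm.pos).continuous
    exact tc_continuous.comp (h2.comp (continuous_id.prodMk continuous_const))
  · show Continuous (omL m)
    rw [continuous_clm_apply]
    intro y
    have h1 : (fun z => omL m z y) = fun z => om m z (fr (m z) (tp y)) :=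
      funext fun z => omL_apply m z y
    rw [h1]
    have h2 := (fr_smooth hm.smooth hm.pos).continuous
    have h3 := (om_smooth hm.smooth hm.pos).continuous
    exact h3.comp (continuous_id.prodMk (h2.comp (continuous_id.prodMk continuous_const)))
  · exact (curv_smooth hm.smooth hm.pos).continuous
  · show Continuous fun q : Pl × ℂ => Ex m q.1 (tp q.2)
    exact (Ex_smooth hX hm).continuous.comp
      (continuous_fst.prodMk (tp_continuous.comp continuous_snd))
  · show Continuous fun q : Pl × Pl => tc (Vx m q.1 q.2)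
    exact tc_continuous.comp (Vx_smooth hX hm).continuous

theorem G1_EV (h : Ctx D m a b LK G) : (∀ x, G.E x 0 = x) ∧ (∀ x y, G.E x (G.V x y) = y) ∧
    (∀ x v, G.V x (G.E x v) = v) ∧ ∀ x y, G.d x y = G.d y x := by
  have hX := h.hX
  have hm := h.hm
  rw [h.eq]
  refine ⟨?_, ?_, ?_, ?_⟩
  · intro x
    show Ex m x (tp 0) = x
    have h0 : tp 0 = 0 := by
      refine Prod.ext ?_ ?_
      · simp [tp]
      · simp [tp]
    rw [h0]
    exact Ex_zero hX hm x
  · intro x y
    exact Ex_Vx hX hm x y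
  · intro x v
    show tc (Vx m x (Ex m x (tp v))) = v
    rw [Vx_Ex hX hm, tc_tp]
  · intro x y
    show ‖tc (Vx m x y)‖ = ‖tc (Vx m y x)‖
    rw [norm_tc, norm_tc]
    exact eu_Vx_comm hX hm x y

theorem G1_ode (h : Ctx D m a b LK G) : (∀ (x : Pl) (u : ℂ), ‖u‖ = 1 → G.B x u 0 = 0) ∧
    (∀ (x : Pl) (u : ℂ), ‖u‖ = 1 → G.Bd x u 0 = 1) ∧
    (∀ (x : Pl) (u : ℂ), ‖u‖ = 1 → ∀ t : ℝ, HasDerivAt (G.B x u) (G.Bd x u t) t) ∧
    ∀ (x : Pl) (u : ℂ), ‖u‖ = 1 → ∀ t : ℝ,
      HasDerivAt (G.Bd x u) (-G.K (G.E x ((t : ℂ) * u)) * G.B x u t) t := by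
  have hX := h.hX
  have hm := h.hm
  rw [h.eq]
  have he : ∀ u : ℂ, ‖u‖ = 1 → eu (tp u) = 1 := fun u hu => by rw [eu_tp, hu]
  refine ⟨?_, ?_, ?_, ?_⟩
  · intro x u hu
    exact (J_zero hX hm (x := x) (he u hu)).2.2.1
  · intro x u hu
    exact (J_zero hX hm (x := x) (he u hu)).2.2.2
  · intro x u hu t
    exact (JB_ode hX hm (x := x) (he u hu) t).1
  · intro x u hu t
    have h1 := (JB_ode hX hm (x := x) (he u hu) t).2
    have h2 : (gfl m t (x, tp u)).1 = Ex m x (tp ((t : ℂ) * u)) := by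
      rw [tp_mul, Ex_ray hX hm]
    rw [h2] at h1
    exact h1

theorem G1_B_cont (h : Ctx D m a b LK G) :
    ContinuousOn (fun q : Pl × ℂ × ℝ => G.B q.1 q.2.1 q.2.2) {q | ‖q.2.1‖ = 1} ∧
    ContinuousOn (fun q : Pl × ℂ × ℝ => G.Bd q.1 q.2.1 q.2.2) {q | ‖q.2.1‖ = 1} := by
  have hX := h.hX
  have hm := h.hm
  rw [h.eq]
  have hJ := (J_smooth hX hm).2
  have hφ : Continuous fun q : Pl × ℂ × ℝ => (((q.1, tp q.2.1), q.2.2) : (Pl × Pl) × ℝ) :=
    (continuous_fst.prodMk (tp_continuous.comp (continuous_fst.comp continuous_snd))).prodMk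
      (continuous_snd.comp continuous_snd)
  refine ⟨?_, ?_⟩
  · exact (hJ.continuous.comp hφ).continuousOn
  · have h1 : (fun q : Pl × ℂ × ℝ => deriv (JB m q.1 (tp q.2.1)) q.2.2) = fun q =>
        fderiv ℝ (fun q : (Pl × Pl) × ℝ => JB m q.1.1 q.1.2 q.2) ((q.1, tp q.2.1), q.2.2)
          ((0 : Pl × Pl), (1 : ℝ)) := by
      funext q
      have h2 : HasDerivAt (fun s : ℝ => (((q.1, tp q.2.1), s) : (Pl × Pl) × ℝ))
          ((0 : Pl × Pl), (1 : ℝ)) q.2.2 :=
        (hasDerivAt_const q.2.2 (q.1, tp q.2.1)).prodMk (hasDerivAt_id q.2.2)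
      have h3 := ((hJ.differentiable (by simp)) ((q.1, tp q.2.1), q.2.2)).hasFDerivAt.comp_hasDerivAt
        q.2.2 h2
      exact h3.deriv
    have h4 : Continuous fun q : Pl × ℂ × ℝ => deriv (JB m q.1 (tp q.2.1)) q.2.2 := by
      rw [h1]
      exact ((hJ.continuous_fderiv (by simp)).comp hφ).clm_apply continuous_const
    exact h4.continuousOn

end HG20
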