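import Pool.Agent.LibHG20.G1

/-! ROW G3 : the curvature is Lipschitz. Uses H1a (`curv_smooth`), H1e (`qf_gfl`, `Ex_ray`), H1j, H1k (`Rg_ip`),
H1l (`curv_deck`).
PLAN. `C` = bound of `|fderiv ℝ (curv m) z (fr (m z) w)|` over the compact set `closure D × {w | eu w ≤ 1}`. For any
`z` choose `g` with `g • z ∈ D`: differentiate `curv m (g • y) = curv m y` at `z`:
`fderiv (curv m) z (fr (m z) w) = fderiv (curv m) (g • z) (fr (m (g • z)) (Rg m g z w))` (definition of `Rg`,
`fr_ifr`), `eu (Rg m g z w) = eu w`: the same bound everywhere. Along `t ↦ Ex m x (t v)`, `v = Vx m x y`, `t ∈ [0, 1]`,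
the derivative of `curv m` is bounded by `C eu v` (`qf_gfl`: the velocity is `fr (..) (gfl ..).2` with
`eu (gfl m t (x, v)).2 = eu v`): mean value inequality. `LK = C + 1`. -/

open MeasureTheory Set Filter Topology
open scoped ContDiff ENNReal NNReal ComplexConjugate

namespace HG20

open BGS BR

variable {Γ : Type} [Group Γ] [MulAction Γ Pl] {D : Set Pl} {m : Pl → Co} {a b LK : ℝ}
  {G : SR85.Dat Γ}

theorem G3_eu (hX : Surface Γ D) (hm : HM Γ m) (g : Γ) (z w : Pl) :
    eu (Rg m g z w) = eu w := by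
  have h1 := Rg_ip hX hm g z w w
  unfold ip at h1
  unfold eu
  congr 1
  nlinarith [h1]

theorem G3_bd (hX : Surface Γ D) (hm : HM Γ m) : ∃ C : ℝ, 0 < C ∧ ∀ z w : Pl,
    |fderiv ℝ (curv m) z (fr (m z) w)| ≤ C * eu w := by
  have hcs := curv_smooth hm.smooth hm.pos
  have hF : Continuous fun p : Pl × Pl => fderiv ℝ (curv m) p.1 (fr (m p.1) p.2) := by
    have h1 : ContDiff ℝ ∞ (fderiv ℝ (curv m)) := hcs.fderiv_right (by simp)
    exact ((h1.comp contDiff_fst).clm_apply (fr_smooth hm.smooth hm.pos)).continuous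
  have heu : Continuous eu := by
    unfold eu
    fun_prop
  have hU : IsCompact {w : Pl | eu w = 1} := by
    refine Metric.isCompact_of_isClosed_isBounded (isClosed_eq heu continuous_const) ?_
    refine (Metric.isBounded_closedBall (x := (0 : Pl)) (r := 1)).subset fun w hw => ?_
    rw [mem_closedBall_zero_iff]
    exact (H1e_norm w).trans (le_of_eq hw)
  have hK : IsCompact (closure D ×ˢ {w : Pl | eu w = 1}) := hX.bdd.isCompact_closure.prod hU
  obtain ⟨C, hC⟩ := hK.exists_bound_of_continuousOn hF.continuousOn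
  refine ⟨|C| + 1, by positivity, fun z w => ?_⟩
  -- on the unit circle, over `D`
  have h1 : ∀ z ∈ D, ∀ w : Pl, eu w = 1 → |fderiv ℝ (curv m) z (fr (m z) w)| ≤ |C| + 1 := by
    intro z hz w hw
    have := hC (z, w) ⟨subset_closure hz, hw⟩
    rw [Real.norm_eq_abs] at this
    exact this.trans ((le_abs_self C).trans (by linarith))
  -- everywhere on the unit circle
  have h2 : ∀ z w : Pl, eu w = 1 → |fderiv ℝ (curv m) z (fr (m z) w)| ≤ |C| + 1 := by
    intro z w hw
    obtain ⟨g, hg, -⟩ := hX.orbit z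
    have hd : DifferentiableAt ℝ (fun y : Pl => g • y) z :=
      (hX.smooth g).differentiable (by simp) z
    have hc : HasFDerivAt (curv m) (fderiv ℝ (curv m) (g • z)) (g • z) :=
      (hcs.differentiable (by simp) (g • z)).hasFDerivAt
    have h3 := hc.comp z hd.hasFDerivAt
    have h4 : (curv m ∘ fun y : Pl => g • y) = curv m := by
      funext y
      exact curv_deck hX hm g y
    rw [h4] at h3
    have hp := hm.pos (g • z)
    rw [h3.fderiv, ContinuousLinearMap.comp_apply, ← fr_ifr hp.1 hp.2 (fderiv ℝ (fun y : Pl => g • y) z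
      (fr (m z) w))]
    exact h1 (g • z) hg _ (by
      have := G3_eu hX hm g z w
      rw [hw] at this
      exact this)
  rcases eq_or_ne w 0 with rfl | hw
  · rw [H1h_fr_zero, map_zero, abs_zero]
    have : 0 ≤ eu (0 : Pl) := Real.sqrt_nonneg _
    positivity
  · obtain ⟨r, u, hr, hu, rfl⟩ := H1h_polar hw
    have h5 : eu (r • u) = r := by
      have h6 : eu (r • u) = r * eu u := by
        unfold eu
        rw [← Real.sqrt_sq hr.le, ← Real.sqrt_mul (sq_nonneg r), Real.sqrt_sq hr.le]
        congr 1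
        simp only [Prod.smul_fst, Prod.smul_snd, smul_eq_mul]
        ring
      rw [h6, hu, mul_one]
    rw [H1h_fr_smul, map_smul, smul_eq_mul, abs_mul, abs_of_pos hr, h5, mul_comm]
    exact mul_le_mul_of_nonneg_right (h2 z u hu) hr.le

theorem G3_lip (hX : Surface Γ D) (hm : HM Γ m) : ∃ LK : ℝ, 0 < LK ∧ ∀ x y : Pl,
    |curv m x - curv m y| ≤ LK * eu (Vx m x y) := by
  obtain ⟨C, hC, hb⟩ := G3_bd hX hm
  refine ⟨C, hC, fun x y => ?_⟩
  have hcs := curv_smooth hm.smooth hm.pos
  set v := Vx m x y with hv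
  have hder : ∀ t : ℝ, HasDerivAt (fun s : ℝ => curv m (Ex m x (s • v)))
      (fderiv ℝ (curv m) (Ex m x (t • v)) (fr (m (Ex m x (t • v))) (gfl m t (x, v)).2)) t := by
    intro t
    exact (hcs.differentiable (by simp) (Ex m x (t • v))).hasFDerivAt.comp_hasDerivAt t
      (qf_gfl hX hm t x v).1
  have h1 := (convex_Icc (0 : ℝ) 1).norm_image_sub_le_of_norm_hasDerivWithin_le
    (f := fun s : ℝ => curv m (Ex m x (s • v))) (C := C * eu v)
    (fun t _ => (hder t).hasDerivWithinAt) (fun t _ => by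
      rw [Real.norm_eq_abs]
      refine (hb _ _).trans (le_of_eq ?_)
      rw [gfl_eu hX hm])
    (right_mem_Icc.2 zero_le_one) (left_mem_Icc.2 zero_le_one)
  simp only [zero_smul, one_smul] at h1
  rw [Ex_zero hX hm, hv, Ex_Vx hX hm, Real.norm_eq_abs, zero_sub, norm_neg, norm_one, mul_one] at h1
  exact h1

end HG20
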