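import Pool.Agent.LibHG20.G5

/-! ROW G6 : derivative of a geodesic in its direction. Uses G1, G5, H1h (`Ex_fderiv`), H1g (`J_zero`).
PLAN. `w` has values in the unit circle, `w' = I w k`, so `r ↦ tp (w r)` has the derivative `k • rot (tp (w s))`.
For `t ≠ 0`: `Ex_fderiv` with `u = tp (w s)`, `r = t`, applied to `t k rot u`: `ip u (rot u) = 0`, `wd u (rot u) = 1`
(`eu u = 1`), so the derivative is `fr (..) ((JB m x u t * k) • rot (gfl m t (x, u)).2)`; `fiL_apply`, `ifr_fr`,
`tc_rot`, `tc_smul`, `G5_dr`. For `t = 0`: the curve is constant `= x` and `B x u 0 = 0`. -/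

open MeasureTheory Set Filter Topology
open scoped ContDiff ENNReal NNReal ComplexConjugate

namespace HG20

open BGS BR

variable {Γ : Type} [Group Γ] [MulAction Γ Pl] {D : Set Pl} {m : Pl → Co} {a b LK : ℝ}
  {G : SR85.Dat Γ}

theorem G6_u (h : Ctx D m a b LK G) : ∀ (x : Pl) (t : ℝ) (w : ℝ → ℂ) (s k : ℝ),
    (∀ r, ‖w r‖ = 1) → HasDerivAt w (Complex.I * w s * k) s → ∃ p : Pl,
    HasDerivAt (fun r : ℝ => G.E x ((t : ℂ) * w r)) p s ∧
      G.fi (G.E x ((t : ℂ) * w s)) p =
        ((G.B x (w s) t * k : ℝ) : ℂ) * Complex.I * G.dr x (w s) t := by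
  intro x t w s k hw hd
  have hX := h.hX
  have hm := h.hm
  have hu : eu (tp (w s)) = 1 := by rw [eu_tp, hw]
  have h1 : HasDerivAt (fun r : ℝ => tp (w r)) (k • rot (tp (w s))) s := by
    have hre : HasDerivAt (fun r : ℝ => (w r).re) (Complex.I * w s * k).re s :=
      Complex.reCLM.hasFDerivAt.comp_hasDerivAt s hd
    have him : HasDerivAt (fun r : ℝ => (w r).im) (Complex.I * w s * k).im s :=
      Complex.imCLM.hasFDerivAt.comp_hasDerivAt s hd
    have h2 := hre.prodMk him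
    have h3 : (((Complex.I * w s * k).re, (Complex.I * w s * k).im) : Pl) =
        k • rot (tp (w s)) := by
      rw [← tp_I, ← tp_mul, mul_comm (k : ℂ)]
      rfl
    rw [h3] at h2
    exact h2
  have hE : (fun r : ℝ => G.E x ((t : ℂ) * w r)) = fun r : ℝ => Ex m x (t • tp (w r)) := by
    funext r
    rw [h.eq, ← tp_mul]
    rfl
  have h4 := (H1h_diffE hX hm x (t • tp (w s))).hasFDerivAt.comp_hasDerivAt s (h1.const_smul t)
  have h5 : fderiv ℝ (Ex m x) (t • tp (w s)) (t • k • rot (tp (w s))) =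
      fr (m (Ex m x (t • tp (w s)))) ((k * JB m x (tp (w s)) t) • rot (gfl m t (x, tp (w s))).2) := by
    rw [smul_comm t k, map_smul, H1h_perp hX hm hu, ← H1h_fr_smul, smul_smul]
  rw [h5] at h4
  refine ⟨_, by rw [hE]; exact h4, ?_⟩
  have hz : G.E x ((t : ℂ) * w s) = Ex m x (t • tp (w s)) := congrFun hE s
  have hp := hm.pos (Ex m x (t • tp (w s)))
  rw [hz, G5_dr h, show G.fi = fiL m by rw [h.eq]; rfl, fiL_apply, ifr_fr hp.1 hp.2, tc_smul,
    tc_rot, show G.B x (w s) t = JB m x (tp (w s)) t by rw [h.eq]; rfl]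
  push_cast
  ring

end HG20
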