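import Pool.Agent.LibHG20.G5
import Pool.Agent.LibBR73.AN3a

/-! ROW G7 : first variation of the distance and of the direction. Uses G1, LibBR73 AN0 (`var_end`, `gfl_dr`, `ds_pos`,
`dr_unit`, `ds_comm`), AN3a (`J_rev`).
PLAN. `G.d x y = BR.ds m x y` (`norm_tc`), for `x ≠ y`: `G.di x y = tc (BR.dr m x y)` (`un`), `G.J x y = JB m x (dr m x y) (ds m x y)`.
`G7_U`: with `v = dr m x y`, `d = ds m x y`: `gfl_dr` : `gfl m d (x, v) = (y, -dr m y x)`, so by `J_rev` at `(x, v)`:
`JB m y (dr m y x) d = JB m x v d`; the same with `x, y` exchanged gives `JA m x v d = deriv (JB m y (dr m y x)) d`; so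
`G.U y x = JA m x v d / JB m x v d`. `G7_dd`, `G7_du`: `var_end` with `w = ar m x y = -dr m y x`, `re_conj`, `im_conj`,
`om m x x' = omL m x (fiL m x x')` (`omL_apply`, `fr_ifr`), `b = ip u1 (rot w) / JB - ip u0 (rot v) (JA / JB)`. -/

open MeasureTheory Set Filter Topology
open scoped ContDiff ENNReal NNReal ComplexConjugate

namespace HG20

open BGS BR

variable {Γ : Type} [Group Γ] [MulAction Γ Pl] {D : Set Pl} {m : Pl → Co} {a b LK : ℝ}
  {G : SR85.Dat Γ}

private theorem G7_rot_neg (v : Pl) : rot (-v) = -rot v := rfl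

private theorem G7_ip_neg (u v : Pl) : ip u (-v) = -ip u v := by
  unfold ip
  simp only [Prod.fst_neg, Prod.snd_neg]
  ring

theorem G7_d (h : Ctx D m a b LK G) (x y : Pl) : G.d x y = BR.ds m x y := by
  have e := h.eq
  subst e
  exact norm_tc _

theorem G7_di (h : Ctx D m a b LK G) {x y : Pl} (hne : x ≠ y) : G.di x y = tc (BR.dr m x y) := by
  have hd := BR.ds_pos h.hX h.hm hne
  have e1 : ‖G.V x y‖ = BR.ds m x y := G7_d h x y
  have e2 : G.V x y = tc (Vx m x y) := by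
    have e := h.eq
    subst e
    rfl
  unfold SR85.Dat.di SR85.un
  rw [e1, e2]
  unfold BR.dr
  rw [tc_smul]
  push_cast
  have hd' : (BR.ds m x y : ℂ) ≠ 0 := by exact_mod_cast hd.ne'
  field_simp

theorem G7_U (h : Ctx D m a b LK G) {x y : Pl} (hne : x ≠ y) :
    G.J x y = JB m x (BR.dr m x y) (BR.ds m x y) ∧ G.U y x =
      JA m x (BR.dr m x y) (BR.ds m x y) / JB m x (BR.dr m x y) (BR.ds m x y) := by
  have hJ : ∀ {x y : Pl}, x ≠ y → G.J x y = JB m x (BR.dr m x y) (BR.ds m x y) := by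
    intro x y hne
    unfold SR85.Dat.J
    rw [G7_di h hne, G7_d h]
    have e := h.eq
    subst e
    show JB m x (tp (tc (BR.dr m x y))) _ = _
    rw [tp_tc]
  refine ⟨hJ hne, ?_⟩
  have hBd : G.Bd y (G.di y x) (G.d y x) = deriv (JB m y (BR.dr m y x)) (BR.ds m y x) := by
    rw [G7_di h hne.symm, G7_d h]
    have e := h.eq
    subst e
    show deriv (JB m y (tp (tc (BR.dr m y x)))) _ = _
    rw [tp_tc]
  unfold SR85.Dat.U
  rw [hBd, hJ hne.symm]
  have g1 := gfl_dr h.hX h.hm hne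
  have g2 := gfl_dr h.hX h.hm hne.symm
  have r1 := (J_rev h.hX h.hm (x := x) (BR.dr_unit h.hX h.hm hne) (BR.ds m x y)).1
  have r2 := (J_rev h.hX h.hm (x := y) (BR.dr_unit h.hX h.hm hne.symm) (BR.ds m y x)).2
  rw [g1] at r1
  rw [g2] at r2
  have a1 : -(BR.ar m x y) = BR.dr m y x := by
    unfold BR.ar
    rw [neg_neg]
  have a2 : -(BR.ar m y x) = BR.dr m x y := by
    unfold BR.ar
    rw [neg_neg]
  simp only [a1] at r1
  simp only [a2] at r2
  rw [← r2, BR.ds_comm h.hX h.hm y x, r1]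

private theorem G7_fi (h : Ctx D m a b LK G) (z w : Pl) : G.fi z w = tc (ifr (m z) w) := by
  have e := h.eq
  subst e
  exact fiL_apply m z w

private theorem G7_om (h : Ctx D m a b LK G) (z w : Pl) : G.om z (G.fi z w) = om m z w := by
  rw [G7_fi h]
  have e := h.eq
  subst e
  show omL m z (tc (ifr (m z) w)) = om m z w
  rw [omL_apply, tp_tc, fr_ifr (h.hm.pos z).1 (h.hm.pos z).2]

theorem G7_dd (h : Ctx D m a b LK G) : ∀ (x y : ℝ → Pl) (x' y' : Pl) (s : ℝ),
    HasDerivAt x x' s → HasDerivAt y y' s → x s ≠ y s →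
    HasDerivAt (fun r => G.d (x r) (y r))
      (-(G.fi (x s) x' * conj (G.di (x s) (y s))).re
        - (G.fi (y s) y' * conj (G.di (y s) (x s))).re) s := by
  intro x y x' y' s hx hy hne
  have hv := (var_end h.hX h.hm hx hy hne rfl rfl rfl rfl rfl rfl rfl).1
  have e1 : (fun r => G.d (x r) (y r)) = fun r => BR.ds m (x r) (y r) :=
    funext fun r => G7_d h _ _
  rw [e1, G7_fi h, G7_fi h, G7_di h hne, G7_di h hne.symm, re_conj, re_conj]
  refine hv.congr_deriv ?_
  unfold BR.ar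
  rw [G7_ip_neg]
  ring

theorem G7_du (h : Ctx D m a b LK G) : ∀ (x y : ℝ → Pl) (x' y' : Pl) (s : ℝ),
    HasDerivAt x x' s → HasDerivAt y y' s → x s ≠ y s →
    HasDerivAt (fun r => G.di (x r) (y r))
      (Complex.I * G.di (x s) (y s) *
        ((-(G.om (x s) (G.fi (x s) x'))
          - G.U (y s) (x s) * (G.fi (x s) x' * conj (G.di (x s) (y s))).im
          - (G.fi (y s) y' * conj (G.di (y s) (x s))).im / G.J (x s) (y s) : ℝ) : ℂ)) s := by
  intro x y x' y' s hx hy hne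
  have hv := (var_end h.hX h.hm hx hy hne rfl rfl rfl rfl rfl rfl rfl).2.1
  -- `tc` as a linear map
  let T : Pl →L[ℝ] ℂ := (ContinuousLinearMap.fst ℝ ℝ ℝ).smulRight (1 : ℂ) +
    (ContinuousLinearMap.snd ℝ ℝ ℝ).smulRight Complex.I
  have hT : ∀ v : Pl, T v = tc v := by
    intro v
    apply Complex.ext <;> simp [T, tc]
  have h1 := T.hasFDerivAt.comp_hasDerivAt s hv
  have hev : ∀ᶠ r in 𝓝 s, x r ≠ y r := by
    have h1 : Tendsto (fun r => (x r, y r)) (𝓝 s) (𝓝 (x s, y s)) :=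
      (hx.continuousAt.prodMk hy.continuousAt)
    exact h1.eventually ((isOpen_ne_fun continuous_fst continuous_snd).mem_nhds hne)
  have h2 : (fun r => G.di (x r) (y r)) =ᶠ[𝓝 s] (T ∘ fun r => BR.dr m (x r) (y r)) := by
    filter_upwards [hev] with r hr
    show _ = T (BR.dr m (x r) (y r))
    rw [hT, G7_di h hr]
  have h3 := h1.congr_of_eventuallyEq h2
  refine h3.congr_deriv ?_
  rw [hT, tc_smul, tc_rot, G7_om h, G7_fi h, G7_fi h, G7_di h hne, G7_di h hne.symm, im_conj,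
    im_conj, (G7_U h hne).1, (G7_U h hne).2]
  unfold BR.ar
  rw [G7_rot_neg, G7_ip_neg]
  have e : ((-(ip (ifr (m (y s)) y') (rot (BR.dr m (y s) (x s)))) -
      ip (ifr (m (x s)) x') (rot (BR.dr m (x s) (y s))) *
        JA m (x s) (BR.dr m (x s) (y s)) (BR.ds m (x s) (y s))) /
      JB m (x s) (BR.dr m (x s) (y s)) (BR.ds m (x s) (y s)) - om m (x s) x' : ℝ) =
      (-(om m (x s) x') - JA m (x s) (BR.dr m (x s) (y s)) (BR.ds m (x s) (y s)) /
        JB m (x s) (BR.dr m (x s) (y s)) (BR.ds m (x s) (y s)) *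
          ip (ifr (m (x s)) x') (rot (BR.dr m (x s) (y s))) -
        ip (ifr (m (y s)) y') (rot (BR.dr m (y s) (x s))) /
          JB m (x s) (BR.dr m (x s) (y s)) (BR.ds m (x s) (y s))) := by
    ring
  rw [e]
  ring

end HG20
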