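import Pool.Agent.LibHG20.G1
import Pool.Agent.LibBR70.H1k
import Pool.Agent.LibBR70.H1l
import Pool.Agent.LibBR70.H1a

/-! ROW G8 : the deck transformations. Uses G1, H1a (`fr_ifr`), H1k (`Rg_ip`, `Rg_rot`, `Rg_smul`), H1l (`Vx_deck`, `curv_deck`).
PLAN. `G8_R`: `Rg m g x` is linear (definition: `ifr`, `fderiv`, `fr` are linear) and commutes with `rot`, so
`Rg m g x v = v.1 • Rg m g x (1, 0) + v.2 • rot (Rg m g x (1, 0))`, which is the complex multiplication by
`tc (Rg m g x (1, 0))`. The norm: `Rg_ip` with `v = w = (1, 0)`. -/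

open MeasureTheory Set Filter Topology
open scoped ContDiff ENNReal NNReal ComplexConjugate

namespace HG20

open BGS BR

variable {Γ : Type} [Group Γ] [MulAction Γ Pl] {D : Set Pl} {m : Pl → Co} {a b LK : ℝ}
  {G : SR85.Dat Γ}

private theorem G8_add (m : Pl → Co) (g : Γ) (x v w : Pl) :
    Rg m g x (v + w) = Rg m g x v + Rg m g x w := by
  have h1 : fr (m x) (v + w) = fr (m x) v + fr (m x) w := by
    simp only [fr, Prod.fst_add, Prod.snd_add, add_smul]
    abel
  have h2 : ∀ (c : Co) (p q : Pl), ifr c (p + q) = ifr c p + ifr c q := by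
    intro c p q
    ext
    · simp only [ifr, bf, Prod.fst_add, Prod.snd_add]
      ring
    · simp only [ifr, bf, Prod.fst_add, Prod.snd_add]
      ring
  simp only [Rg, h1, map_add, h2]

theorem G8_R (h : Ctx D m a b LK G) (g : Γ) (x v : Pl) : tc (Rg m g x v) = G.R g x * tc v := by
  have e : v = v.1 • ((1, 0) : Pl) + v.2 • rot (1, 0) := by
    ext <;> simp [rot]
  have h1 : Rg m g x v = v.1 • Rg m g x (1, 0) + v.2 • rot (Rg m g x (1, 0)) := by
    conv_lhs => rw [e]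
    rw [G8_add, Rg_smul h.hX h.hm, Rg_smul h.hX h.hm, Rg_rot h.hX h.hO h.hm]
  rw [h1, h.eq]
  show _ = tc (Rg m g x (1, 0)) * tc v
  apply Complex.ext
  · simp only [tc, rot, Prod.fst_add, Prod.snd_add, Prod.smul_fst, Prod.smul_snd, smul_eq_mul,
      Complex.mul_re]
    ring
  · simp only [tc, rot, Prod.fst_add, Prod.snd_add, Prod.smul_fst, Prod.smul_snd, smul_eq_mul,
      Complex.mul_im]
    ring

theorem G8_norm (h : Ctx D m a b LK G) : ∀ (g : Γ) (x : Pl), ‖G.R g x‖ = 1 := by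
  intro g x
  rw [h.eq]
  show ‖tc (Rg m g x (1, 0))‖ = 1
  rw [norm_tc]
  have h1 := Rg_ip h.hX h.hm g x (1, 0) (1, 0)
  unfold eu
  rw [show (Rg m g x (1, 0)).1 ^ 2 + (Rg m g x (1, 0)).2 ^ 2 =
    ip (Rg m g x (1, 0)) (Rg m g x (1, 0)) by simp only [ip]; ring, h1]
  simp [ip]

theorem G8_V (h : Ctx D m a b LK G) : ∀ (g : Γ) (x y : Pl),
    G.V (g • x) (g • y) = G.R g x * G.V x y := by
  intro g x y
  have h1 : ∀ p q : Pl, G.V p q = tc (Vx m p q) := fun p q => by rw [h.eq]; rfl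
  rw [h1, h1, Vx_deck h.hX h.hO h.hm, G8_R h]

theorem G8_K (h : Ctx D m a b LK G) : ∀ (g : Γ) (x : Pl), G.K (g • x) = G.K x := by
  intro g x
  rw [h.eq]
  exact curv_deck h.hX h.hm g x

theorem G8_fi (h : Ctx D m a b LK G) : ∀ (g : Γ) (z v : Pl),
    G.fi (g • z) (fderiv ℝ (fun w : Pl => g • w) z v) = G.R g z * G.fi z v := by
  intro g z v
  have h1 : ∀ p q : Pl, G.fi p q = tc (ifr (m p) q) := fun p q => by
    rw [h.eq]
    exact fiL_apply m p q
  have h2 := h.hm.pos z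
  rw [h1, h1, ← G8_R h]
  unfold Rg
  rw [fr_ifr h2.1 h2.2]

end HG20
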