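import Pool.Agent.LibHG20.G1

/-! ROW G9 : the area in polar coordinates. Uses G1, H1h (`Ex_det`), H1j (`Ex_bij`).
PLAN. Change of variables for `Ex m x : Pl → Pl`, smooth and bijective
(`lintegral_image_eq_lintegral_abs_det_fderiv_mul` with `s = univ`):
`∫⁻ y, f y rho y = ∫⁻ v, f (Ex x v) rho (Ex x v) |det|`, and polar coordinates in the plane
(`lintegral_comp_polarCoord_symm`, target `Ioi 0 ×ˢ Ioo (-π) π`, Fubini `lintegral_prod` for measurable functions,
`Ioo` replaced by `Ioc`: `Ioo_ae_eq_Ioc`). For `v = r u`, `u = (cos θ, sin θ)`, `r > 0`: `rho (Ex x v) |det| = JB m x u r / r`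
(`Ex_det`; it is positive: `JB_ge`), and the Jacobian `r` of polar coordinates cancels `1 / r`.
`Complex.exp (θ I)` has the coordinates `(cos θ, sin θ)`. -/

open MeasureTheory Set Filter Topology
open scoped ContDiff ENNReal NNReal ComplexConjugate

namespace HG20

open BGS BR

variable {Γ : Type} [Group Γ] [MulAction Γ Pl] {D : Set Pl} {m : Pl → Co} {a b LK : ℝ}
  {G : SR85.Dat Γ}

private theorem G9_tp (θ : ℝ) : tp (Complex.exp ((θ : ℂ) * Complex.I)) =
    (Real.cos θ, Real.sin θ) := by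
  unfold tp
  rw [Complex.exp_ofReal_mul_I_re, Complex.exp_ofReal_mul_I_im]

private theorem G9_eu (θ : ℝ) : eu (Real.cos θ, Real.sin θ) = 1 := by
  unfold eu
  rw [show ((Real.cos θ, Real.sin θ) : Pl).1 = Real.cos θ from rfl,
    show ((Real.cos θ, Real.sin θ) : Pl).2 = Real.sin θ from rfl, Real.cos_sq_add_sin_sq]
  exact Real.sqrt_one

private theorem G9_pt (hX : Surface Γ D) (hm : HM Γ m) (x : Pl) (f : Pl → ℝ≥0∞) {r : ℝ}
    (hr : 0 < r) (θ : ℝ) :
    ENNReal.ofReal r * (ENNReal.ofReal |(fderiv ℝ (Ex m x) (r * Real.cos θ, r * Real.sin θ)).det| *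
      (f (Ex m x (r * Real.cos θ, r * Real.sin θ)) *
        ENNReal.ofReal (√(dt (m (Ex m x (r * Real.cos θ, r * Real.sin θ))))))) =
    f (Ex m x (tp ((r : ℂ) * Complex.exp ((θ : ℂ) * Complex.I)))) *
      ENNReal.ofReal (JB m x (tp (Complex.exp ((θ : ℂ) * Complex.I))) r) := by
  have hu := G9_eu θ
  have hp : tp ((r : ℂ) * Complex.exp ((θ : ℂ) * Complex.I)) =
      (r * Real.cos θ, r * Real.sin θ) := by
    rw [tp_mul, G9_tp]
    rfl
  have hq : ((r * Real.cos θ, r * Real.sin θ) : Pl) = r • (Real.cos θ, Real.sin θ) := rfl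
  rw [hp, G9_tp, hq]
  have h1 := Ex_det hX hm (x := x) hu hr
  have h2 := (JB_ge hX hm (x := x) hu hr.le).1
  set p : Pl := r • (Real.cos θ, Real.sin θ) with hpdef
  have h3 : 0 < √(dt (m (Ex m x p))) := Real.sqrt_pos.2 (hm.pos _).2
  have h4 : 0 < JB m x (Real.cos θ, Real.sin θ) r / r := by
    apply div_pos _ hr
    linarith
  have h5 : 0 < (fderiv ℝ (Ex m x) p).det := by
    rw [← h1] at h4
    exact (pos_iff_pos_of_mul_pos h4).1 h3
  rw [abs_of_pos h5]
  have h6 : ENNReal.ofReal (JB m x (Real.cos θ, Real.sin θ) r) =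
      ENNReal.ofReal r * (ENNReal.ofReal (fderiv ℝ (Ex m x) p).det *
        ENNReal.ofReal (√(dt (m (Ex m x p))))) := by
    rw [← ENNReal.ofReal_mul h5.le, ← ENNReal.ofReal_mul hr.le]
    congr 1
    rw [mul_comm (fderiv ℝ (Ex m x) p).det, h1]
    field_simp
  rw [h6]
  ring

theorem G9_polar (h : Ctx D m a b LK G) : ∀ (x : Pl) (f : Pl → ℝ≥0∞), Measurable f →
    ∫⁻ y, f y * ENNReal.ofReal (G.rho y) =
      ∫⁻ r in Ioi (0 : ℝ), ∫⁻ θ in Ioc (-Real.pi) Real.pi,
        f (G.E x ((r : ℂ) * Complex.exp ((θ : ℂ) * Complex.I))) *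
          ENNReal.ofReal (G.B x (Complex.exp ((θ : ℂ) * Complex.I)) r) := by
  intro x f hf
  have hX := h.hX
  have hm := h.hm
  rw [h.eq]
  show ∫⁻ y, f y * ENNReal.ofReal (√(dt (m y))) =
      ∫⁻ r in Ioi (0 : ℝ), ∫⁻ θ in Ioc (-Real.pi) Real.pi,
        f (Ex m x (tp ((r : ℂ) * Complex.exp ((θ : ℂ) * Complex.I)))) *
          ENNReal.ofReal (JB m x (tp (Complex.exp ((θ : ℂ) * Complex.I))) r)
  have hS : ContDiff ℝ ∞ (Ex m x) := (Ex_smooth hX hm).comp (contDiff_const.prodMk contDiff_id)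
  have hrho : Continuous fun z => √(dt (m z)) := by
    have := (G1_cont h).1
    rw [h.eq] at this
    exact this
  have hdet : Continuous fun v => |(fderiv ℝ (Ex m x) v).det| :=
    (ContinuousLinearMap.continuous_det.comp (hS.continuous_fderiv (by simp))).abs
  have h1 := lintegral_image_eq_lintegral_abs_det_fderiv_mul (volume : Measure Pl)
    (s := univ) (f := Ex m x) (f' := fderiv ℝ (Ex m x)) MeasurableSet.univ
    (fun v _ => ((hS.differentiable (by simp)) v).hasFDerivAt.hasFDerivWithinAt)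
    (Ex_bij hX hm x).1.injOn (fun y => f y * ENNReal.ofReal (√(dt (m y))))
  rw [image_univ, (Ex_bij hX hm x).2.range_eq, Measure.restrict_univ] at h1
  rw [h1, ← lintegral_comp_polarCoord_symm, polarCoord_target, Measure.volume_eq_prod,
    ← Measure.prod_restrict, lintegral_prod]
  · refine setLIntegral_congr_fun measurableSet_Ioi ?_
    intro r hr
    show ∫⁻ θ in Ioo (-Real.pi) Real.pi, _ = _
    rw [Measure.restrict_congr_set Ioo_ae_eq_Ioc]
    refine lintegral_congr fun θ => ?_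
    exact G9_pt hX hm x f hr θ
  · apply Measurable.aemeasurable
    have hc : Continuous fun p : ℝ × ℝ => ((p.1 * Real.cos p.2, p.1 * Real.sin p.2) : Pl) := by
      fun_prop
    have hE : Continuous (Ex m x) := hS.continuous
    exact (ENNReal.measurable_ofReal.comp measurable_fst).mul
      ((ENNReal.measurable_ofReal.comp ((hdet.comp hc).measurable)).mul
        ((hf.comp (hE.comp hc).measurable).mul
          (ENNReal.measurable_ofReal.comp ((hrho.comp (hE.comp hc)).measurable))))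

end HG20
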