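import Pool.Agent.LibHG20.G2
import Pool.Agent.LibHG20.G3
import Pool.Agent.LibHG20.G6
import Pool.Agent.LibHG20.G7
import Pool.Agent.LibHG20.G8
import Pool.Agent.LibHG20.G9
import Pool.Agent.LibBGM20.H1B
import Pool.Agent.LibBGM20.A5
import Pool.Agent.LibBGM20.A4t

/-! The structure `SR85.HG`. -/

open MeasureTheory Set Filter Topology
open scoped ContDiff ENNReal NNReal ComplexConjugate

namespace HG20

open BGS BR

variable {Γ : Type} [Group Γ] [MulAction Γ Pl] {D : Set Pl} {m : Pl → Co} {a b LK : ℝ}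
  {G : SR85.Dat Γ}

theorem G10_tri (h : Ctx D m a b LK G) : ∀ x y z, G.d x z ≤ G.d x y + G.d y z := by
  have hb : 0 < b := h.a_pos.trans_le h.ab
  have h1 := BGM.had_of h.hX h.hm hb h.K_ge
  intro x y z
  have h2 := BGM.ds_tri h1.rp x y z
  rw [BGM.ds_eq h1, BGM.ds_eq h1, BGM.ds_eq h1] at h2
  have e : ∀ x y, G.d x y = eu (Vx m x y) := fun x y => by
    rw [h.eq]
    exact norm_tc _
  rw [e, e, e]
  exact h2

theorem G10_diag (h : Ctx D m a b LK G) : ∀ x : Pl, G.B x 0 0 = 0 := by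
  intro x
  rw [h.eq]
  show cq m (gfl m 0 (x, tp 0)) (dgf m 0 (x, tp 0) (lift m x (tp 0) 0 0 1)) = 0
  have h1 : tp 0 = 0 := rfl
  have h2 : lift m x (0 : Pl) 0 0 1 = 0 := by
    have h3 : rot (0 : Pl) = 0 := by
      unfold rot
      simp
    have h4 : fr (m x) (0 : Pl) = 0 := by
      unfold fr
      simp
    unfold lift
    simp only [h3, smul_zero, add_zero, h4]
    rfl
  rw [h1, h2]
  have h5 : dgf m 0 (x, (0 : Pl)) 0 = 0 := map_zero _
  rw [h5]
  unfold cq ip ifr bf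
  simp

theorem hg_ctx (h : Ctx D m a b LK G) : SR85.HG D G where
  a_pos := by rw [h.eq]; exact h.a_pos
  ab := by rw [h.eq]; exact h.ab
  LK_pos := by rw [h.eq]; exact h.LK_pos
  rho_cont := (G1_cont h).1
  rho_pos := (G1_cont h).2.1
  rho_int := G2_rho_int h
  rho_inv := fun g f hf => G2_rho_inv h g f hf
  fi_cont := (G1_cont h).2.2.1
  om_cont := (G1_cont h).2.2.2.1
  K_cont := (G1_cont h).2.2.2.2.1
  K_le := by rw [h.eq]; exact h.K_le
  K_ge := by rw [h.eq]; exact h.K_ge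
  K_lip := by
    intro x y
    rw [G7_d h, h.eq]
    exact h.K_lip x y
  E_cont := (G1_cont h).2.2.2.2.2.1
  V_cont := (G1_cont h).2.2.2.2.2.2
  E_zero := (G1_EV h).1
  EV := (G1_EV h).2.1
  VE := (G1_EV h).2.2.1
  d_symm := (G1_EV h).2.2.2
  d_tri := G10_tri h
  flow := G5_flow h
  dr_norm := G5_norm h
  E_t := G5_t h
  E_u := G6_u h
  dr_t := G5_dr_t h
  dd := G7_dd h
  du := G7_du h
  B_zero := (G1_ode h).1
  Bd_zero := (G1_ode h).2.1
  B_der := (G1_ode h).2.2.1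
  Bd_der := (G1_ode h).2.2.2
  B_diag := G10_diag h
  B_cont := (G1_B_cont h).1
  Bd_cont := (G1_B_cont h).2
  R_norm := G8_norm h
  V_smul := G8_V h
  K_smul := G8_K h
  fi_smul := G8_fi h
  polar := G9_polar h

/-- **The geometry of a metric of negative curvature and area one.** -/
theorem hg_of (hX : Surface Γ D) (hO : Ori Γ) (m : Mt Γ D) : ∃ a b LK : ℝ,
    Ctx D m.1.1 a b LK (dat Γ m.1.1 a b LK) ∧ SR85.HG D (dat Γ m.1.1 a b LK) := by
  have hm : HM Γ m.1.1 := ⟨m.1.2, m.2.pos, m.2.inv, m.2.neg⟩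
  obtain ⟨a, b, ha, hab, hK⟩ := curv_bounds hX hm
  obtain ⟨LK, hLK, hl⟩ := G3_lip hX hm
  have hc : Ctx D m.1.1 a b LK (dat Γ m.1.1 a b LK) :=
    ⟨hX, hO, hm, m.2.area, ha, hab, hLK, fun z => (hK z).2, fun z => (hK z).1, hl, rfl⟩
  exact ⟨a, b, LK, hc, hg_ctx hc⟩

end HG20
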