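import Pool.Agent.LibHG20.G1
import Pool.Agent.LibBGR.Per

/-! ROW G2 : the area is invariant. Uses `HM.inv`, LibBGR.Per.
PLAN. `G2_det`: copy of `BGS.PER_rho` (its proof only uses the positivity and the invariance of the metric).
`G2_rho_inv`: change of variables `lintegral_image_eq_lintegral_abs_det_fderiv_mul` for the diffeomorphism
`z ↦ g • z` of the plane (injective, image `univ`, `Surface.smooth`): `∫⁻ f y rho y dy = ∫⁻ f (g z) rho (g z) |det| dz`
and `|det| rho (g z) = rho z`. -/

open MeasureTheory Set Filter Topology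
open scoped ContDiff ENNReal NNReal ComplexConjugate

namespace HG20

open BGS BR

variable {Γ : Type} [Group Γ] [MulAction Γ Pl] {D : Set Pl} {m : Pl → Co} {a b LK : ℝ}
  {G : SR85.Dat Γ}

theorem G2_det (hX : Surface Γ D) (hm : HM Γ m) (γ : Γ) (z : Pl) :
    √(dt (m z)) = |(fderiv ℝ (fun w : Pl => γ • w) z).det| * √(dt (m (γ • z))) := by
  set A := fderiv ℝ (fun w : Pl => γ • w) z with hA
  have hi := hm.inv γ z
  have h10 := hi (1, 0)
  have h01 := hi (0, 1)
  have h11 := hi (1, 1)
  rw [← hA, PER_apply A (1, 1)] at h11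
  rw [← hA] at h10 h01
  simp only [qf] at h10 h01 h11
  have hd := PER_algebra (E := (m z).1) (F := (m z).2.1) (G := (m z).2.2)
    (E' := (m (γ • z)).1) (F' := (m (γ • z)).2.1) (G' := (m (γ • z)).2.2)
    (a := (A (1, 0)).1) (b := (A (0, 1)).1) (c := (A (1, 0)).2) (d := (A (0, 1)).2)
    (by linarith) (by linarith) (by linarith)
  have hd' : dt (m z) = A.det ^ 2 * dt (m (γ • z)) := by
    rw [PER_det A]
    exact hd
  rw [hd', Real.sqrt_mul (sq_nonneg _), Real.sqrt_sq_eq_abs]

theorem G2_rho_inv (h : Ctx D m a b LK G) (g : Γ) (f : Pl → ℝ≥0∞) (hf : Measurable f) :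
    ∫⁻ z, f (g • z) * ENNReal.ofReal (G.rho z) = ∫⁻ z, f z * ENNReal.ofReal (G.rho z) := by
  have hr : ∀ z, G.rho z = √(dt (m z)) := by
    intro z
    rw [h.eq]
    rfl
  have him : (fun w : Pl => g • w) '' univ = univ := by
    rw [image_univ, range_eq_univ]
    intro y
    exact ⟨g⁻¹ • y, by simp⟩
  have key := lintegral_image_eq_lintegral_abs_det_fderiv_mul volume MeasurableSet.univ
    (f := fun w : Pl => g • w) (f' := fun z => fderiv ℝ (fun w : Pl => g • w) z)
    (fun z _ => ((h.hX.smooth g).differentiable (by simp) z).hasFDerivAt.hasFDerivWithinAt)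
    (PER_inj g).injOn (fun z => f z * ENNReal.ofReal (G.rho z))
  rw [him, setLIntegral_univ, setLIntegral_univ] at key
  rw [key]
  apply lintegral_congr
  intro z
  rw [hr, hr, G2_det h.hX h.hm g z, ENNReal.ofReal_mul (abs_nonneg _)]
  ring

theorem G2_rho_int (h : Ctx D m a b LK G) : ∫ z in D, G.rho z = 1 := by
  rw [h.eq]
  exact h.area

end HG20
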