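import Pool.Agent.LibHG20.G1
import Pool.Agent.LibBR70.H1e
import Pool.Agent.LibBR70.H1j
import Pool.Agent.LibBR70.H1a

/-! ROW G5 : geodesics. Uses G1, H1e (`Ex_add`, `gfl_eu`, `qf_gfl`, `gfl_isFlow`, `Ex_ray`), H1j (`Vx_Ex`), H1a (`ifr_fr`).
PLAN. `G5_dr`: by `Ex_add` at `s = t`, `t = 1`: `Ex x ((t + 1) u) = Ex (Ex x (t u)) (gfl t (x, u)).2`, and `Vx_Ex`.
`G5_flow`: `Ex_add` again. `G5_t`: `qf_gfl`, `ifr_fr`. `G5_dr_t`: the second component of `gfl_isFlow`: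
`gf m (z, v) = (.., om m z (fr (m z) v) • (v.2, -v.1))` and `tc (v.2, -v.1) = -I * tc v`. -/

open MeasureTheory Set Filter Topology
open scoped ContDiff ENNReal NNReal ComplexConjugate

namespace HG20

open BGS BR

variable {Γ : Type} [Group Γ] [MulAction Γ Pl] {D : Set Pl} {m : Pl → Co} {a b LK : ℝ}
  {G : SR85.Dat Γ}

theorem G5_dr (h : Ctx D m a b LK G) (x : Pl) (u : ℂ) (t : ℝ) :
    G.dr x u t = tc (gfl m t (x, tp u)).2 := by
  rw [h.eq]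
  show tc (Vx m (Ex m x (tp ((t : ℂ) * u))) (Ex m x (tp (((t + 1 : ℝ) : ℂ) * u)))) = _
  rw [tp_mul, tp_mul, Ex_add h.hX h.hm, one_smul, Vx_Ex h.hX h.hm]

theorem G5_flow (h : Ctx D m a b LK G) : ∀ (x : Pl) (u : ℂ), ‖u‖ = 1 → ∀ t s : ℝ,
    G.E (G.E x ((t : ℂ) * u)) ((s : ℂ) * G.dr x u t) = G.E x (((t + s : ℝ) : ℂ) * u) := by
  intro x u _ t s
  rw [G5_dr h, h.eq]
  show Ex m (Ex m x (tp ((t : ℂ) * u))) (tp ((s : ℂ) * tc (gfl m t (x, tp u)).2)) =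
    Ex m x (tp (((t + s : ℝ) : ℂ) * u))
  rw [tp_mul, tp_mul, tp_mul, tp_tc, Ex_add h.hX h.hm]

theorem G5_norm (h : Ctx D m a b LK G) : ∀ (x : Pl) (u : ℂ), ‖u‖ = 1 → ∀ t : ℝ,
    ‖G.dr x u t‖ = 1 := by
  intro x u hu t
  rw [G5_dr h, norm_tc, gfl_eu h.hX h.hm, eu_tp, hu]

theorem G5_t (h : Ctx D m a b LK G) : ∀ (x : Pl) (u : ℂ), ‖u‖ = 1 → ∀ t : ℝ, ∃ p : Pl,
    HasDerivAt (fun s : ℝ => G.E x ((s : ℂ) * u)) p t ∧
      G.fi (G.E x ((t : ℂ) * u)) p = G.dr x u t := by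
  intro x u _ t
  have h1 := (qf_gfl h.hX h.hm t x (tp u)).1
  have hE : ∀ s : ℝ, G.E x ((s : ℂ) * u) = Ex m x (s • tp u) := by
    intro s
    rw [h.eq]
    show Ex m x (tp ((s : ℂ) * u)) = _
    rw [tp_mul]
  refine ⟨fr (m (Ex m x (t • tp u))) (gfl m t (x, tp u)).2, ?_, ?_⟩
  rotate_left
  · rw [hE, G5_dr h, h.eq]
    show fiL m (Ex m x (t • tp u)) (fr (m (Ex m x (t • tp u))) (gfl m t (x, tp u)).2) = _
    have h2 := h.hm.pos (Ex m x (t • tp u))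
    rw [fiL_apply, ifr_fr h2.1 h2.2]
  · have h3 : (fun s : ℝ => G.E x ((s : ℂ) * u)) = fun s => Ex m x (s • tp u) := funext hE
    rw [h3]
    exact h1

private theorem G5_tc : (tc : Pl → ℂ) = fun v => Complex.equivRealProdCLM.symm v := by
  funext v
  apply Complex.ext <;> simp [tc]

theorem G5_dr_t (h : Ctx D m a b LK G) : ∀ (x : Pl) (u : ℂ), ‖u‖ = 1 → ∀ t : ℝ,
    HasDerivAt (fun s : ℝ => G.dr x u s)
      (-Complex.I * (G.om (G.E x ((t : ℂ) * u)) (G.dr x u t) : ℂ) * G.dr x u t) t := by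
  intro x u _ t
  have h1 := ((gfl_isFlow h.hX h.hm).deriv (x, tp u) t).snd
  have h2 : (fun s : ℝ => G.dr x u s) = fun s => tc (gfl m s (x, tp u)).2 :=
    funext fun s => G5_dr h x u s
  have hE : G.E x ((t : ℂ) * u) = (gfl m t (x, tp u)).1 := by
    rw [h.eq]
    show Ex m x (tp ((t : ℂ) * u)) = _
    rw [tp_mul, Ex_ray h.hX h.hm]
  rw [h2]
  have h3 : HasDerivAt (fun s => tc (gfl m s (x, tp u)).2)
      (tc (gf m (gfl m t (x, tp u))).2) t := by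
    rw [G5_tc]
    exact (Complex.equivRealProdCLM.symm.toContinuousLinearMap.hasFDerivAt).comp_hasDerivAt t h1
  convert h3 using 1
  rw [hE, G5_dr h]
  have h4 : G.om (gfl m t (x, tp u)).1 (tc (gfl m t (x, tp u)).2) =
      om m (gfl m t (x, tp u)).1 (fr (m (gfl m t (x, tp u)).1) (gfl m t (x, tp u)).2) := by
    rw [h.eq]
    show omL m _ _ = _
    rw [omL_apply, tp_tc]
  rw [h4]
  apply Complex.ext
  · simp [tc, gf]
  · simp [tc, gf]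

end HG20
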